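import Pool.Agent.H78.GX.H6.N4D.TA

/-!
# MP_c59857_nt, row MAC of the board n4d_modules: large steps
-/

set_option autoImplicit false

open Finset

namespace Pool.Agent.H78.GX.H59.N4D

open Pool.Agent.H6.N4D Pool.Agent.H78.GX.H6.N4D Pool.Agent.H78.GX

theorem mac_shift (T U : Finset ℤ) (F : ℤ → ℝ) (c : ℤ) (hF : ∀ u, 0 ≤ F u)
    (h : ∀ t ∈ T, t + c ∈ U) : ∑ t ∈ T, F (t + c) ≤ ∑ u ∈ U, F u := by
  have h1 : ∑ t ∈ T, F (t + c) = ∑ u ∈ T.map (addRightEmbedding c), F u := by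
    rw [Finset.sum_map]
    rfl
  rw [h1]
  refine Finset.sum_le_sum_of_subset_of_nonneg ?_ fun u _ _ => hF u
  intro u hu
  rw [Finset.mem_map] at hu
  obtain ⟨t, ht, rfl⟩ := hu
  exact h t ht

theorem mac_three (x y z : ℂ) : ‖x + y + z‖ ^ 2 ≤ 3 * (‖x‖ ^ 2 + ‖y‖ ^ 2 + ‖z‖ ^ 2) := by
  have h1 : ‖x + y + z‖ ≤ ‖x‖ + ‖y‖ + ‖z‖ := norm_add₃_le
  have h0 := norm_nonneg (x + y + z)
  calc ‖x + y + z‖ ^ 2 ≤ (‖x‖ + ‖y‖ + ‖z‖) ^ 2 := by gcongr
    _ ≤ 3 * (‖x‖ ^ 2 + ‖y‖ ^ 2 + ‖z‖ ^ 2) := by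
      nlinarith [sq_nonneg (‖x‖ - ‖y‖), sq_nonneg (‖y‖ - ‖z‖), sq_nonneg (‖x‖ - ‖z‖)]

theorem mem_In {S : Par} {c : ℝ} {t : ℤ} : t ∈ In S c ↔ t ∈ S.I ∧
    c * (S.K * S.L) ≤ ((t : ℝ) - S.a) * S.h ∧ c * (S.K * S.L) ≤ ((S.b : ℝ) - t) * S.h := by
  unfold In
  rw [mem_filter]

theorem pf_MAC (hLOC : T_LOC) (hPRI : T_PRI) (hSIZ : T_SIZ) : T_MAC := by
  intro B c X₁ hG M hM
  obtain ⟨CL, hCL, hL⟩ := hLOC B c X₁ hG M hM
  obtain ⟨CP, hCP, hP⟩ := hPRI M hM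
  obtain ⟨XS, hS⟩ := hSIZ
  refine ⟨3 * CL + 6 * CP, by linarith, fun K hK => ?_⟩
  by_cases hK1 : 1 ≤ K
  swap
  · exact ⟨0, fun S hOk hSK _ => absurd (hSK ▸ hOk.hK) hK1⟩
  obtain ⟨XL, hL⟩ := hL K hK
  obtain ⟨XP, hP⟩ := hP K hK1
  refine ⟨max XS (max XL XP), fun S hOk hSK hX ε f hε hε1 hf hE v hv => ?_⟩
  have hXS : XS ≤ S.X := (le_max_left _ _).trans hX
  have hXL : XL ≤ S.X := ((le_max_left _ _).trans (le_max_right _ _)).trans hX
  have hXP : XP ≤ S.X := ((le_max_right _ _).trans (le_max_right _ _)).trans hX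
  obtain ⟨hL1, -, -, hr1, hh4, -, -, -, -, hl, -, hN0, -⟩ := hS S hOk hXS
  have hLS := hL S hOk hSK hXL ε f hε hε1 hf hE
  have hPS := hP S hOk hSK hXP ε f hε hε1 hf hE
  have hh := hOk.hh
  have hr0 := hOk.hr0
  have hKr : (1 : ℝ) ≤ K := by exact_mod_cast hK1
  have hSKr : (S.K : ℝ) = K := by rw [hSK]
  have hhs : S.h ≤ 1 / 4 := by
    have : S.rho ^ 4 ≤ (1 / 100) ^ 4 := by gcongr
    linarith
  have hhL : S.h ≤ S.L / 4 := by linarith
  have hvh : 0 ≤ (v : ℝ) * S.h := by positivity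
  have hKL : S.L ≤ K * S.L := le_mul_of_one_le_left (by linarith) hKr
  -- the prime number q
  have hhalf : S.P ^ (1 / 2 : ℝ) = Real.exp (S.L / 2) := by
    rw [Real.rpow_def_of_pos S.P_pos, S.log_P]
    congr 1
    ring
  have hPK : S.P ^ K = Real.exp (K * S.L) := S.P_pow K
  obtain ⟨q, hq, hqA⟩ := hPS (S.P ^ K) le_rfl (by
    rw [hhalf, S.P_pow, S.P_pow, ← Real.exp_add]
    apply Real.exp_le_exp.2
    push_cast
    linarith)
  obtain ⟨p, hp, hpA⟩ := hPS (S.P ^ K * Real.exp (v * S.h)) (by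
    have h1 : 0 < S.P ^ K := pow_pos S.P_pos _
    have h2 : 1 ≤ Real.exp (v * S.h) := Real.one_le_exp hvh
    exact le_mul_of_one_le_right h1.le h2) (by
    rw [hhalf, S.P_pow, S.P_pow, ← Real.exp_add, ← Real.exp_add]
    apply Real.exp_le_exp.2
    push_cast
    linarith)
  rw [mem_Pr (by rw [hhalf]; have := pow_pos S.P_pos K; positivity)] at hq hp
  obtain ⟨hq1, hq2, hqp⟩ := hq
  obtain ⟨hp1, hp2, hpp⟩ := hp
  have hq0 : (0 : ℝ) < q := by exact_mod_cast hqp.pos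
  have hp0 : (0 : ℝ) < p := by exact_mod_cast hpp.pos
  have hlq1 : K * S.L < Real.log q := by
    rw [Real.lt_log_iff_exp_lt hq0, ← hPK]
    exact hq1
  have hlq2 : Real.log q ≤ K * S.L + S.L / 2 := by
    rw [Real.log_le_iff_le_exp hq0, Real.exp_add, ← hPK, ← hhalf]
    exact hq2
  have hlp1 : K * S.L + v * S.h < Real.log p := by
    rw [Real.lt_log_iff_exp_lt hp0, Real.exp_add, ← hPK]
    exact hp1
  have hlp2 : Real.log p ≤ K * S.L + v * S.h + S.L / 2 := by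
    rw [Real.log_le_iff_le_exp hp0, Real.exp_add, Real.exp_add, ← hPK, ← hhalf]
    exact hp2
  have hlq := abs_le.1 (hl q hqp.one_lt.le)
  have hlp := abs_le.1 (hl p hpp.one_lt.le)
  set lq : ℤ := S.l q with hlqd
  set lp : ℤ := S.l p with hlpd
  set d : ℤ := lp - lq - v with hd
  have hdr : (d : ℝ) * S.h = S.h * lp - S.h * lq - v * S.h := by
    rw [hd]
    push_cast
    ring
  have hd1 : -S.L ≤ (d : ℝ) * S.h := by rw [hdr]; linarith [hlq.1, hlq.2, hlp.1, hlp.2]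
  have hd2 : (d : ℝ) * S.h ≤ S.L := by rw [hdr]; linarith [hlq.1, hlq.2, hlp.1, hlp.2]
  have hdabs : |(d : ℝ)| * S.h ≤ S.L := by
    have h1 : |(d : ℝ)| * S.h = |(d : ℝ) * S.h| := by rw [abs_mul, abs_of_pos hh]
    rw [h1, abs_le]
    exact ⟨hd1, hd2⟩
  have hLOCd := hLS d hdabs
  -- the three sums
  set T := (In S 3).filter (fun t => t + (v : ℤ) ∈ In S 3) with hT
  have hlqh : 0 < (lq : ℝ) := by
    by_contra hn
    have : S.h * (lq : ℝ) ≤ 0 := mul_nonpos_of_nonneg_of_nonpos hh.le (not_lt.1 hn)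
    linarith [hlq.1]
  have hlqp : 0 < lq := by exact_mod_cast hlqh
  have mT : ∀ t ∈ T, t ∈ S.I ∧ t - lq ∈ S.I ∧ t + v ∈ In S 1 ∧ t + v + d ∈ In S 1 := by
    intro t ht
    rw [hT, mem_filter, mem_In, mem_In, hSKr] at ht
    obtain ⟨⟨h1, h2, h3⟩, h4, h5, h6⟩ := ht
    have hKL0 : 0 < (K : ℝ) * S.L := mul_pos (by linarith) (by linarith)
    refine ⟨h1, ?_, ?_, ?_⟩
    · rw [S.mem_I] at h1 ⊢
      constructor
      · have h7 : 0 < ((t : ℝ) - lq - S.a) * S.h := by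
          have : ((t : ℝ) - lq - S.a) * S.h = ((t : ℝ) - S.a) * S.h - S.h * lq := by ring
          rw [this]
          linarith [hlq.2]
        have h8 : 0 < (t : ℝ) - lq - S.a := pos_of_mul_pos_left h7 hh.le
        have h9 : (S.a : ℝ) < ((t - lq : ℤ) : ℝ) := by push_cast; linarith
        exact_mod_cast h9.le
      · omega
    · rw [mem_In, hSKr]
      exact ⟨h4, by linarith, by linarith⟩
    · rw [mem_In, hSKr, S.mem_I]
      push_cast at h5 h6 ⊢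
      have h7 : 1 * ((K : ℝ) * S.L) ≤ ((t : ℝ) + v + d - S.a) * S.h := by
        have : ((t : ℝ) + v + d - S.a) * S.h = ((t : ℝ) + v - S.a) * S.h + d * S.h := by ring
        rw [this]
        linarith
      have h8 : 1 * ((K : ℝ) * S.L) ≤ ((S.b : ℝ) - (t + v + d)) * S.h := by
        have : ((S.b : ℝ) - (t + v + d)) * S.h = ((S.b : ℝ) - (t + v)) * S.h - d * S.h := by ring
        rw [this]
        linarith
      refine ⟨⟨?_, ?_⟩, h7, h8⟩
      · have h9 : 0 < (t : ℝ) + v + d - S.a := by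
          refine pos_of_mul_pos_left (b := S.h) ?_ hh.le
          linarith
        have h10 : (S.a : ℝ) < ((t + v + d : ℤ) : ℝ) := by push_cast; linarith
        exact_mod_cast h10.le
      · have h9 : 0 < (S.b : ℝ) - (t + v + d) := by
          refine pos_of_mul_pos_left (b := S.h) ?_ hh.le
          linarith
        have h10 : ((t + v + d : ℤ) : ℝ) < (S.b : ℝ) := by push_cast; linarith
        exact_mod_cast h10
  have key : ∑ t ∈ T, ‖f (t + v) - f t‖ ^ 2 ≤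
      ∑ t ∈ T, 3 * (‖f (t + v + d) - f (t + v)‖ ^ 2 +
        ‖f (t + (v + d) - lp) - f (t + (v + d))‖ ^ 2 + ‖f (t + 0 - lq) - f (t + 0)‖ ^ 2) := by
    refine Finset.sum_le_sum fun t _ => ?_
    have h1 : f (t + v) - f t = -(f (t + v + d) - f (t + v)) +
        -(f (t + (v + d) - lp) - f (t + (v + d))) + (f (t + 0 - lq) - f (t + 0)) := by
      have e1 : t + (v + d) - lp = t + 0 - lq := by rw [hd]; ring
      have e2 : t + v + d = t + (v + d) := by ring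
      rw [e1, e2, add_zero]
      ring
    rw [h1]
    refine (mac_three _ _ _).trans (le_of_eq ?_)
    rw [norm_neg, norm_neg]
  refine key.trans ?_
  rw [← Finset.mul_sum, Finset.sum_add_distrib, Finset.sum_add_distrib]
  have s1 : ∑ t ∈ T, ‖f (t + v + d) - f (t + v)‖ ^ 2 ≤ CL * (ε + 1 / (K : ℝ) ^ 2) * S.N := by
    refine le_trans ?_ hLOCd
    refine mac_shift T _ (fun u => ‖f (u + d) - f u‖ ^ 2) v (fun u => by positivity) ?_
    intro t ht
    rw [mem_filter]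
    exact ⟨(mT t ht).2.2.1, (mT t ht).2.2.2⟩
  have s2 : ∑ t ∈ T, ‖f (t + (v + d) - lp) - f (t + (v + d))‖ ^ 2 ≤ CP * (K * ε) * S.N := by
    refine le_trans ?_ hpA
    refine mac_shift T _ (fun u => ‖f (u - lp) - f u‖ ^ 2) (v + d) (fun u => by positivity) ?_
    intro t ht
    rw [mem_filter]
    constructor
    · have := (mem_In.1 (mT t ht).2.2.2).1
      rwa [add_assoc] at this
    · have := (mT t ht).2.1
      have e1 : t + (v + d) - lp = t - lq := by rw [hd]; ring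
      rw [e1]
      exact this
  have s3 : ∑ t ∈ T, ‖f (t + 0 - lq) - f (t + 0)‖ ^ 2 ≤ CP * (K * ε) * S.N := by
    refine le_trans ?_ hqA
    refine mac_shift T _ (fun u => ‖f (u - lq) - f u‖ ^ 2) 0 (fun u => by positivity) ?_
    intro t ht
    rw [mem_filter, add_zero]
    exact ⟨(mT t ht).1, (mT t ht).2.1⟩
  have hεK : ε ≤ K * ε := le_mul_of_one_le_left hε.le hKr
  have hK2 : 0 ≤ 1 / (K : ℝ) ^ 2 := by positivity
  calc 3 * (∑ t ∈ T, ‖f (t + v + d) - f (t + v)‖ ^ 2 +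
        ∑ t ∈ T, ‖f (t + (v + d) - lp) - f (t + (v + d))‖ ^ 2 +
        ∑ t ∈ T, ‖f (t + 0 - lq) - f (t + 0)‖ ^ 2) ≤
      3 * (CL * (ε + 1 / (K : ℝ) ^ 2) * S.N + CP * (K * ε) * S.N + CP * (K * ε) * S.N) := by
        linarith
    _ = (3 * CL * (ε + 1 / (K : ℝ) ^ 2) + 6 * CP * (K * ε)) * S.N := by ring
    _ ≤ (3 * CL * (K * ε + 1 / (K : ℝ) ^ 2) + 6 * CP * (K * ε + 1 / (K : ℝ) ^ 2)) * S.N := by
        gcongr
        linarith
    _ = (3 * CL + 6 * CP) * (K * ε + 1 / (K : ℝ) ^ 2) * S.N := by ring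

end Pool.Agent.H78.GX.H59.N4D
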